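import Pool.Agent.Lib_helper69.CTT.Find
import Pool.Agent.Lib_helper7.CTT.Cand

/-!
# The search step for truth-table reductions (MP_675993_lc)

If every language in `NP` has a truth-table reduction to `CL O W r d` then one can decide in
polynomial time whether `W n` has an element below `U`, given the least elements of `W 0`, ...,
`W (n - 1)` and the answers to the short instances of `UK O`.
-/

set_option autoImplicit false
set_option linter.unusedSectionVars false

namespace Pool.Agent.CTT

open Pool.Agent.CK Pool.Agent.CKP Pool.Agent.PSL Pool.Agent.PCL Pool.Agent.TT Pool.Agent.DET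

/-- **The search step for truth-table reductions.** -/
theorem exists_srch {O : Lang} {W : ℕ → ℕ → Bool} {ℓ : ℕ → ℕ} (hver : Ver O W ℓ)
    (hcut : Cut W ℓ) {r d : ℕ}
    (hred : ∀ A : Lang, InNP O A → ∃ (Q : List Bool → List (List Bool))
      (V : List Bool → List Bool → Bool), PTime O Q ∧
      PTime O (fun p : List Bool × List Bool => V p.1 p.2) ∧
      ∀ z, A z = V z ((Q z).map (CL O W r d)))
    {π : Type} [ToD π] {phi : π → List (Bool × ℕ) → List Bool → Bool}
    (hphi : PTime O (fun p : π × List (Bool × ℕ) × List Bool => phi p.1 p.2.1 p.2.2)) :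
    ∃ S : π → List (Bool × ℕ) → List Unit → ℕ → Bool,
      PTime O (fun p : π × List (Bool × ℕ) × List Unit × ℕ => S p.1 p.2.1 p.2.2.1 p.2.2.2) ∧
      ∀ (u : π) (T : List (Bool × ℕ)) (n : List Unit) (U : ℕ), U ≤ 2 ^ ℓ n.length →
        (∀ j < n.length, LeastSpec W j (ent T j)) →
        (∀ y : List Bool, y.length ^ r ≤ n.length → phi u T y = UK O y) →
        (S u T n U = true ↔ ∃ v < U, W n.length v = true) := by
  obtain ⟨S, hS1, hS2⟩ := exists_find (π := π) hver
    (Good := fun u T n => (∀ j < n.length, LeastSpec W j (ent T j)) ∧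
      ∀ y : List Bool, y.length ^ r ≤ n.length → phi u T y = UK O y)
    (fun A hA => by
      obtain ⟨Q, V, hQ, hV, hQV⟩ := hred A hA
      obtain ⟨P, hP⟩ := gS_bound (O := O) (π := π) (W := W) (phi := phi) (ℓ := ℓ) (r := r)
        (d := d) (V := V) hQ
      refine ⟨fun u T n zs => gS W phi ℓ r d Q V T u n zs, fun n U zs => jackS W r d Q n U zs,
        P, ?_, ?_, fun u T n zs => hP T u n zs, ?_, fun n U zs h => jackS_spec h⟩
      · exact PTime.gS hver hphi hQ hV PTime.id.fst.snd.fst PTime.id.fst.fst
          PTime.id.fst.snd.snd PTime.id.snd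
      · exact PTime.jackS hver hQ PTime.id.fst.fst PTime.id.fst.snd PTime.id.snd
      · intro u T n U zs hgood hex hj
        refine gS_true hcut hQV hgood.1 (fun q _ hv hw => hgood.2 _ ?_) hex hj
        unfold valid at hv
        rw [Bool.and_eq_true, Bool.and_eq_true, decide_eq_true_eq] at hv
        omega)
  exact ⟨S, hS1, fun u T n U hU h1 h2 => hS2 u T n U hU ⟨h1, h2⟩⟩

end Pool.Agent.CTT
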