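import Pool.Agent.Lib_helper69.CTT.Srch
import Pool.Agent.Lib_helper50.DET.T3

/-!
# Does `0^n` have a witness below `U`? (MP_675993_lc)

The search with jackpots for the verifier of the witnesses `< U` of `0^n`.  The candidate lists may
be wrong if the data `T` are not good, if there is no witness, or if there is a jackpot.
-/

set_option autoImplicit false
set_option linter.unusedSectionVars false

namespace Pool.Agent.CTT

open Pool.Agent.CK Pool.Agent.CKP Pool.Agent.PSL Pool.Agent.PCL Pool.Agent.TT Pool.Agent.DET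

theorem ptime_q1 {P : Lang} {γ : Type} [ToD γ] {M : γ → List Unit} {u : γ → ℕ}
    (hM : PTime P M) (hu : PTime P u) : PTime P (fun a => q1 (M a) (u a)) := by
  unfold q1
  exact PTime.enc ((PTime.const D.nil).consD (hM.code.consD hu.code))

/-- **The search step.**  `g u T n` are candidate lists for an arbitrary `NP` language; `jack`
recognizes jackpots. -/
theorem exists_find {O : Lang} {W : ℕ → ℕ → Bool} {ℓ : ℕ → ℕ} (hver : Ver O W ℓ)
    {π : Type} [ToD π] {Good : π → List (Bool × ℕ) → List Unit → Prop}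
    (hg : ∀ A : Lang, InNP O A → ∃ (g : π → List (Bool × ℕ) → List Unit → List (List Bool) →
      List (List Bool)) (jack : List Unit → ℕ → List (List Bool) → Bool) (P : Polynomial ℕ),
      PTime O (fun p : (π × List (Bool × ℕ) × List Unit) × List (List Bool) =>
        g p.1.1 p.1.2.1 p.1.2.2 p.2) ∧
      PTime O (fun p : (List Unit × ℕ) × List (List Bool) => jack p.1.1 p.1.2 p.2) ∧
      (∀ u T n zs, (g u T n zs).length ≤ P.eval (sz zs)) ∧
      (∀ (u : π) (T : List (Bool × ℕ)) (n : List Unit) (U : ℕ) (zs : List (List Bool)),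
        Good u T n → (∃ v < U, W n.length v = true) → jack n U zs = false →
        zs.map A ∈ g u T n zs) ∧
      ∀ (n : List Unit) (U : ℕ) (zs : List (List Bool)), jack n U zs = true →
        ∃ v < U, W n.length v = true) :
    ∃ S : π → List (Bool × ℕ) → List Unit → ℕ → Bool,
      PTime O (fun p : π × List (Bool × ℕ) × List Unit × ℕ => S p.1 p.2.1 p.2.2.1 p.2.2.2) ∧
      ∀ (u : π) (T : List (Bool × ℕ)) (n : List Unit) (U : ℕ), U ≤ 2 ^ ℓ n.length →
        Good u T n → (S u T n U = true ↔ ∃ v < U, W n.length v = true) := by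
  classical
  obtain ⟨d, k, hd1, hd2⟩ := exists_verD hver
  obtain ⟨g, jack, P, hg1, hg2, hg3, hg4, hg5⟩ := hg _ (QL_inNP (O := O) d k)
  obtain ⟨e, he⟩ := exists_e O d k
  obtain ⟨NN, hNN, hN⟩ := exists_NN hver k P e
  refine ⟨fun u T n U => srch (g u T n) (jack n U) O d k (q1 n U)
    (List.replicate (NN n.length) ()), ?_, ?_⟩
  · have hO : PTime O O := PTime.ask (O := O) PTime.id
    refine ptime_srch (G := fun p : π × List (Bool × ℕ) × List Unit × ℕ => g p.1 p.2.1 p.2.2.1)
      (J := fun p => jack p.2.2.1 p.2.2.2) hO d k ?_ ?_ ?_ ?_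
    · exact hg1.comp ((PTime.id.fst.fst.pair (PTime.id.fst.snd.fst.pair
        PTime.id.fst.snd.snd.fst)).pair PTime.id.snd)
    · exact hg2.comp ((PTime.id.fst.snd.snd.fst.pair PTime.id.fst.snd.snd.snd).pair PTime.id.snd)
    · exact ptime_q1 PTime.id.snd.snd.fst PTime.id.snd.snd.snd
    · exact UPoly.comp hNN PTime.id.snd.snd.fst
  · intro u T n U hU hgood
    obtain ⟨h1, h2, h3⟩ := hN n U hU
    constructor
    · intro hs
      rcases srch_sound hs with ⟨y, hy⟩ | ⟨qs, _, hj⟩
      · have h4 := hd1 n U y hy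
        unfold chk at h4
        rw [Bool.and_eq_true, decide_eq_true_eq] at h4
        exact ⟨_, h4.2, h4.1⟩
      · exact hg5 n U qs hj
    · rintro ⟨v, hv, hWv⟩
      refine he _ _ _ _ ?_ ?_ ?_ ?_ (hd2 n U v hWv hv)
      · rw [List.length_replicate]
        exact h1
      · rw [List.length_replicate]
        exact h2
      · intro qs hqs
        rw [List.length_replicate] at hqs ⊢
        exact (hg3 u T n qs).trans_lt ((poly_mono P hqs).trans_lt h3)
      · intro qs _ hj
        exact hg4 u T n U qs hgood ⟨v, hv, hWv⟩ hj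

end Pool.Agent.CTT
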