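import Pool.Agent.Lib_helper78.TT.W1
import Pool.Agent.Lib_helper27.DET.P

/-!
# The search with jackpots (MP_675993_lc)

`srch` is the search of `TT.Search` with candidate lists `g` for the batches of questions; it is
also successful if one of the batches that are asked is a jackpot.
-/

set_option autoImplicit false
set_option linter.unusedSectionVars false

namespace Pool.Agent.CTT

open Pool.Agent.CK Pool.Agent.CKP Pool.Agent.PSL Pool.Agent.PCL Pool.Agent.TT

/-- the search with jackpots -/
def srch (g : List (List Bool) → List (List Bool)) (jack : List (List Bool) → Bool) (O : Lang)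
    (d : Cmd) (k : ℕ) (x : List Bool) (N : List Unit) : Bool :=
  !(search g O d k x N).isEmpty || (asked g x N).any jack

section

variable {O : Lang} {d : Cmd} {k : ℕ} {g : List (List Bool) → List (List Bool)}
  {jack : List (List Bool) → Bool} {x : List Bool} {N : List Unit}

/-- if the search is successful then there is a witness, or a jackpot -/
theorem srch_sound (h : srch g jack O d k x N = true) :
    (∃ y, wit O d k x y = true) ∨ ∃ qs ∈ asked g x N, jack qs = true := by
  unfold srch at h
  rw [Bool.or_eq_true] at h
  rcases h with h | h
  · left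
    rw [Bool.not_eq_true', List.isEmpty_eq_false_iff] at h
    obtain ⟨y, hy⟩ := List.exists_mem_of_ne_nil _ h
    exact ⟨y, search_sound y hy⟩
  · right
    exact List.any_eq_true.1 h

/-- the size of the batches that matter -/
theorem exists_e (O : Lang) (d : Cmd) (k : ℕ) : ∃ e : ℕ,
    ∀ (g : List (List Bool) → List (List Bool)) (jack : List (List Bool) → Bool)
      (x : List Bool) (N : List Unit), x.length ≤ N.length → (x.length + 2) ^ k < N.length →
      (∀ qs : List (List Bool), sz qs ≤ (N.length + 2) ^ e → (g qs).length < 2 ^ N.length) →
      (∀ qs ∈ asked g x N, jack qs = false → qs.map (QL O d k) ∈ g qs) →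
      (∃ y, wit O d k x y = true) → srch g jack O d k x N = true := by
  obtain ⟨e, he⟩ := search_complete_of (O := O) (d := d) (k := k) fun q => QL_qcode d k q
  refine ⟨e, fun g jack x N hx hN hlen hg hw => ?_⟩
  unfold srch
  rw [Bool.or_eq_true]
  rcases search_or_asked he hx hN hlen hw with h | ⟨qs, hqs, hqs2⟩
  · left
    rw [Bool.not_eq_true', List.isEmpty_eq_false_iff]
    exact h
  · right
    refine List.any_eq_true.2 ⟨qs, hqs, ?_⟩
    by_contra hj
    exact hqs2 (hg qs hqs (by simpa using hj))

end

section

variable {O P : Lang} {γ : Type} [ToD γ] {G : γ → List (List Bool) → List (List Bool)}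
  {J : γ → List (List Bool) → Bool}

/-- the search with jackpots in polynomial time -/
theorem ptime_srch (hO : PTime P O) (d : Cmd) (k : ℕ)
    (hG : PTime P (fun p : γ × List (List Bool) => G p.1 p.2))
    (hJ : PTime P (fun p : γ × List (List Bool) => J p.1 p.2))
    {x : γ → List Bool} {N : γ → List Unit} (hx : PTime P x) (hN : PTime P N) :
    PTime P (fun a => srch (G a) (J a) O d k (x a) (N a)) := by
  unfold srch
  exact ((ptime_search hO d k hG hx hN).isNil.not).or
    (PTime.any (f := fun a qs => J a qs) (ptime_asked hG hx hN) hJ)

end

end Pool.Agent.CTT
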